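import Pool.Agent.H84.W.Deg

set_option autoImplicit false

/-!
The isomorphism conjecture for all torsion-free groups, together with the vanishing of all Whitehead
groups, is equivalent to the statement that `Wh C = 0` and that `L m 1 → L m C` is surjective for one
`m`, for one finitely generated torsion-free group `C` with the homology of the trivial group.
-/

namespace Pool.Agent.Results.MP_98022b_gt.AcyclicGroup

open Pool.Agent.H84.W

/-- For every homology theory `E` with Mayer-Vietoris sequences and every class `K` of groups with the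
properties `GoodClassFG`, there is a finitely generated torsion-free group `C` with the homology of the
trivial group, such that for all assembly maps `T` with the properties `Adm` and `AmAdm`:

(1) `L (n+1) 1 → L (n+1) C` is surjective if and only if `T` is surjective in degree `n + 1` and
injective in degree `n` for all torsion-free groups;

(2) if `T` is periodic, and if `Wh` is a functor with the properties `WhGood` such that `T` splits for
the products `G × ℤ` with `Wh (G × ℤ) = 0`, then for every single degree `m`: `Wh G = 0` and `T` is an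
isomorphism in all degrees for all torsion-free groups `G` if and only if `Wh C = 0` and
`L m 1 → L m C` is surjective. -/
theorem result : ∀ (E : ℤ → GrpFun) (K : GClass), HasMayerVietoris E → GoodClassFG E K →
    ∃ (C : Type) (_ : Group C), Group.FG C ∧ TF C ∧ EqE E (1 : Unit →* C) ∧
    ∀ T : Assembly, T.Adm E K → T.AmAdm K →
      (∀ n, Function.Surjective ((T.L (n + 1)).map (1 : Unit →* C)) ↔
        AllTF (fun G _ => T.Surj (n + 1) G ∧ T.Inj n G)) ∧
      ∀ Wh : GrpFun, WhGood Wh K → T.Periodic →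
        (∀ (n : ℤ) (G : Type) [Group G], TF G →
          (∀ x : Wh.obj (G × Multiplicative ℤ), x = 0) → Splits T T n G) →
        ∀ m : ℤ, (AllTF (fun G _ => (∀ x : Wh.obj G, x = 0) ∧ ∀ n, T.Inj n G ∧ T.Surj n G) ↔
          (∀ x : Wh.obj C, x = 0) ∧ Function.Surjective ((T.L m).map (1 : Unit →* C))) := by
  intro E K hE hKfg
  have hK := hKfg.good
  obtain ⟨W, _, h1, h4⟩ := one_group
  have h3 : TF W := h1.2.2
  have hfp : Group.IsFinitelyPresented W := h1.1
  have : Countable W := countable_of_fp W
  obtain ⟨D, hfg⟩ := hKfg.kanThurston W h3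
  have hC := coneAm_tf h3 D
  have hC' := coneAm_acyclic hE D
  have hW : Group.FG W := by
    obtain ⟨a, b, hab⟩ := h1.2.1
    have h5 : (Subgroup.closure ({a, b} : Set W)).FG :=
      (Subgroup.fg_iff _).2 ⟨{a, b}, rfl, by simp⟩
    exact ⟨hab ▸ h5⟩
  have hCfg : Group.FG (ConeAm D.i D.f) := Am.fg _ _ inferInstance hfg
  refine ⟨ConeAm D.i D.f, inferInstance, hCfg, hC, hC', fun T hT hA => ?_⟩
  have s0 : ∀ n, Function.Surjective ((T.L (n + 1)).map (1 : Unit →* ConeAm D.i D.f)) →
      T.Surj (n + 1) W ∧ T.Inj n W :=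
    fun n h => T.descent_cone hT.bijective hK.unit hT.homology hA hE n D h
  have h6 := h4 T (hT.admissible hK)
  have s1 : ∀ n, Function.Surjective ((T.L (n + 1)).map (1 : Unit →* ConeAm D.i D.f)) →
      AllTF (fun G _ => T.Surj (n + 1) G ∧ T.Inj n G) := by
    intro n h G _ hG
    have h5 := s0 n h
    exact ⟨(h6 (n + 1)).1 h5.1 G hG, (h6 n).2 h5.1 h5.2 G hG⟩
  have s2 : ∀ n, T.Surj n (ConeAm D.i D.f) →
      Function.Surjective ((T.L n).map (1 : Unit →* ConeAm D.i D.f)) :=
    fun n h => T.unit_surj n (hT.homology _ _ _ hC' n).2 h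
  refine ⟨fun n => ⟨s1 n, fun h => s2 _ (h _ hC).1⟩, fun Wh hWh hP hS m =>
    ⟨fun h => ⟨(h _ hC).1, s2 _ ((h _ hC).2 m).2⟩, fun ⟨h, h'⟩ => ?_⟩⟩
  -- the Whitehead groups vanish
  have w1 : ∀ x : Wh.obj (W × D.Q), x = 0 := by
    intro x
    apply hWh.am _ _ _ _ _ (graph_injective D.i D.f D.inj) D.inj D.mem
    rw [map_zero]
    exact h _
  have w2 : ∀ x : Wh.obj W, x = 0 := by
    intro x
    have h5 := Wh.map_retr (MonoidHom.inl W D.Q) (MonoidHom.fst W D.Q) (fun x => rfl) x
    rw [w1 (Wh.map (MonoidHom.inl W D.Q) x), map_zero] at h5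
    exact h5.symm
  have w3 : AllTF (fun G _ => ∀ x : Wh.obj G, x = 0) := by
    intro G _ hG
    have := (h4 (whAsm Wh) (hWh.adm.admissible hK) 0).1 ((whAsm_surj Wh 0 W).2 w2) G hG
    exact (whAsm_surj Wh 0 G).1 this
  obtain ⟨k, rfl⟩ : ∃ k, m = k + 1 := ⟨m - 1, by ring⟩
  have w4 : ∀ n, AllTF (fun G _ => T.Surj n G) :=
    surj_all_of_wh hP hS w3 (k + 1) (fun G _ hG => (s1 k h' G hG).1)
  exact fun G _ hG => ⟨w3 G hG, fun n => ⟨hT.inj_of_surj hK n (w4 (n + 1)) G hG, w4 n G hG⟩⟩

end Pool.Agent.Results.MP_98022b_gt.AcyclicGroup
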