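import Pool.Agent.H4.AS.Two

set_option autoImplicit false

/-!
# The isomorphism conjecture is equivalent to injectivity for one inclusion of index two

The homotopy groups of the source and the target of the assembly map of the aspherical complexes `BG`
are functors `H_n`, `L_n` of the group `G`. They commute with directed colimits, inner automorphisms
act trivially on them, and for the trivial group the assembly map is an isomorphism. From these
elementary properties alone we deduce the following. There are a countable torsion-free group `V` and
a subgroup `L` of index two, such that for all such `α_n : H_n → L_n` and all `n`: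

* `α_n` is injective for all torsion-free groups if and only if the kernel of `α_n` for `L` injects
  into the kernel of `α_n` for `V`;
* `α_n` is surjective for all torsion-free groups if and only if the cokernel of `α_n` for `L` injects
  into the cokernel of `α_n` for `V`.

So the conjecture is a question about the behaviour of the kernels and cokernels under the double
covering `BL → BV` of one aspherical complex with countable fundamental group: if the conjecture fails
for any torsion-free group, then something in the kernels or cokernels for `BL` dies in `BV`.

Proof. Let `V = (G × G) ⋊ ℤ`, where `ℤ` interchanges the factors, and `L = (G × G) × 2ℤ`. The two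
embeddings of `G` in `L` are conjugate in `V`, so the difference of the two images of an element of the
kernel (cokernel) for `G` dies in `V`. If it is zero for `L`, the projection `L → G` shows that the
element comes from the trivial group. For `G` one takes a countable torsion-free group which has the
largest torsion-free quotients of all finitely presented groups as retracts.
-/

namespace Pool.Agent.Results.MP_98022b_gt.IndexTwoPair

open Pool.Agent.H84.W Pool.Agent.H4.OG Pool.Agent.H4.AS

/-- There are a countable torsion-free group `V` and a subgroup `L` of index two such that, for all
natural transformations `α_n : H_n → L_n` (`T`) with the properties `Basic`: all `α_n` are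
isomorphisms for all torsion-free groups if and only if for all `n` the kernel and the cokernel of
`α_n` for `L` inject into those for `V`; and for each `n` separately, `α_n` is injective (surjective)
for all torsion-free groups if and only if its kernel (cokernel) for `L` injects into the one
for `V`. -/
theorem result : ∃ (V : Type) (_ : Group V) (L : Subgroup V), Countable V ∧ TF V ∧ L.index = 2 ∧
    ∀ T : Assembly, Basic T →
      (AllTF (fun G _ => ∀ n, T.Inj n G ∧ T.Surj n G) ↔
        ∀ n, KerInj T n L.subtype ∧ CokerInj T n L.subtype) ∧
      (∀ n, AllTF (fun G _ => T.Inj n G) ↔ KerInj T n L.subtype) ∧
      (∀ n, AllTF (fun G _ => T.Surj n G) ↔ CokerInj T n L.subtype) := by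
  have hU : TF UU := tfcl_tf RU
  have hV := VV_tf UU hU
  have hL : TF (LL UU) := fun g hg => Subtype.ext
    (hV g.1 (MonoidHom.isOfFinOrder (LL UU).subtype hg))
  refine ⟨VV UU, inferInstance, LL UU,
    (SemidirectProduct.equivProd (φ := phi UU)).injective.countable, hV, LL_index UU,
    fun T hT => ⟨⟨fun h n => ?_, fun h G _ hG n => ?_⟩, fun n => ⟨fun h => ?_, fun h => ?_⟩,
      fun n => ⟨fun h => ?_, fun h => ?_⟩⟩⟩
  · exact ⟨kerInj_of_inj T n _ (h _ hL n).1, cokerInj_of_surj T n _ (h _ hL n).2⟩
  · exact ⟨inj_all T hT n (h n).1 G hG, surj_all T hT n (h n).2 G hG⟩
  · exact kerInj_of_inj T n _ (h _ hL)
  · exact inj_all T hT n h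
  · exact cokerInj_of_surj T n _ (h _ hL)
  · exact surj_all T hT n h

end Pool.Agent.Results.MP_98022b_gt.IndexTwoPair
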