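import Pool.Agent.H84.W.Asm

set_option autoImplicit false

/-!
One finitely presented torsion-free group with two generators decides the isomorphism conjecture
for the assembly maps of all torsion-free groups.
-/

namespace Pool.Agent.Results.MP_98022b_gt.OneFPGroup

open Pool.Agent.H84.W

/-- There is a finitely presented torsion-free group `W` with two generators such that, for every
admissible assembly map `T`: `T` is an isomorphism in all degrees for `W` if and only if it is an
isomorphism in all degrees for all torsion-free groups. Moreover surjectivity in degree `n` for `W`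
is equivalent to surjectivity in degree `n` for all torsion-free groups, and surjectivity in degree
`n + 1` together with injectivity in degree `n` for `W` is equivalent to the same for all
torsion-free groups. -/
theorem result : ∃ (W : Type) (_ : Group W), FP2TF W ∧ ∀ T : Assembly, T.Admissible →
    ((∀ n, T.Inj n W ∧ T.Surj n W) ↔ AllTF (fun G _ => ∀ n, T.Inj n G ∧ T.Surj n G)) ∧
    (∀ n, T.Surj n W ↔ AllTF (fun G _ => T.Surj n G)) ∧
    (∀ n, (T.Surj (n + 1) W ∧ T.Inj n W) ↔
      AllTF (fun G _ => T.Surj (n + 1) G ∧ T.Inj n G)) := by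
  obtain ⟨W, _, h1, h4⟩ := one_group
  have h3 : TF W := h1.2.2
  refine ⟨W, inferInstance, h1, fun T hT => ⟨⟨fun h G _ hG n => ?_, fun h n => h W h3 n⟩,
    fun n => ⟨fun h => (h4 T hT n).1 h, fun h => h W h3⟩, fun n => ⟨fun h G _ hG => ?_,
      fun h => h W h3⟩⟩⟩
  · exact ⟨(h4 T hT n).2 (h (n + 1)).2 (h n).1 G hG, (h4 T hT n).1 (h n).2 G hG⟩
  · exact ⟨(h4 T hT (n + 1)).1 h.1 G hG, (h4 T hT n).2 h.1 h.2 G hG⟩

end Pool.Agent.Results.MP_98022b_gt.OneFPGroup
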