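import Pool.Agent.H84.W.Deg

set_option autoImplicit false

/-!
Surjectivity of the assembly map of one finitely presented torsion-free group in one degree.
-/

namespace Pool.Agent.Results.MP_98022b_gt.SurjectivityDecides

open Pool.Agent.H84.W

/-- There is a finitely presented torsion-free group `W` with two generators such that, for every
homology theory `E` and every class `K` of groups with the properties `GoodClass`:

(1) an assembly map `T` with the properties `Adm` is surjective in degree `n + 1` for `W` if and only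
if it is surjective in degree `n + 1` and injective in degree `n` for all torsion-free groups;

(2) for all assembly maps `D.T 0, D.T 1, …` and `D.Tinf` (decorations `h, p, -1, …` and `-∞`) with the
properties `Good`, and for every single degree `m`: if `D.T 0` is surjective in degree `m` for `W`,
then, for all torsion-free groups and in all degrees, `D.T 0` is injective and `D.Tinf` is an
isomorphism; `D.T 0` is an isomorphism in all degrees for all torsion-free groups if and only if it is
surjective in degree `m` for `W` and the homomorphisms from the target of `D.T 0` to the target of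
`D.Tinf` are injective for `W`. -/
theorem result : ∃ (W : Type) (_ : Group W), FP2TF W ∧
    ∀ (E : ℤ → GrpFun) (K : GClass), GoodClass E K →
      (∀ T : Assembly, T.Adm E K →
        ∀ n, T.Surj (n + 1) W ↔ AllTF (fun G _ => T.Surj (n + 1) G ∧ T.Inj n G)) ∧
      ∀ D : Decorated, D.Good E K → ∀ m : ℤ,
      ((D.T 0).Surj m W →
        AllTF (fun G _ => ∀ n, (D.T 0).Inj n G ∧ D.Tinf.Inj n G ∧ D.Tinf.Surj n G)) ∧
      (AllTF (fun G _ => ∀ n, (D.T 0).Inj n G ∧ (D.T 0).Surj n G) ↔
        (D.T 0).Surj m W ∧ ∀ n, Function.Injective ((D.toInf 0).l n W)) := by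
  obtain ⟨W, _, h1, h4⟩ := one_group
  have h3 : TF W := h1.2.2
  refine ⟨W, inferInstance, h1, fun E K hK => ⟨fun T hT n => ⟨fun h G _ hG => ?_,
    fun h => (h W h3).1⟩, fun D hD m => ?_⟩⟩
  · have s1 := (h4 T (hT.admissible hK) (n + 1)).1 h
    exact ⟨s1 G hG, hT.inj_of_surj hK n s1 G hG⟩
  have s1 : ∀ n, (D.T 0).Surj n W → AllTF (fun G _ => (D.T 0).Surj n G) :=
    fun n => (h4 _ (hD.zero.admissible hK) n).1
  have s2 : (D.T 0).Surj m W →
      AllTF (fun G _ => ∀ n, (D.T 0).Inj n G ∧ D.Tinf.Inj n G ∧ D.Tinf.Surj n G) :=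
    fun h => hD.main hK m (s1 m h)
  refine ⟨s2, fun h => ⟨(h W h3 m).2, fun n => ?_⟩, fun ⟨h, h'⟩ G _ hG n =>
    ⟨(s2 h G hG n).1, s1 n ?_ G hG⟩⟩
  · rw [injective_iff_map_eq_zero]
    intro x hx
    obtain ⟨y, rfl⟩ := (h W h3 n).2 x
    rw [(D.toInf 0).comm] at hx
    have h5 : (D.toInf 0).h n W y = 0 := by
      apply (s2 (h W h3 m).2 W h3 n).2.1
      rw [hx, map_zero]
    have h6 : y = 0 := by
      apply ((D.toInf 0).h n W).injective
      rw [h5, map_zero]
    rw [h6, map_zero]
  · intro x
    obtain ⟨z, hz⟩ := (s2 h W h3 n).2.2 ((D.toInf 0).l n W x)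
    obtain ⟨y, rfl⟩ := ((D.toInf 0).h n W).surjective z
    rw [← (D.toInf 0).comm] at hz
    exact ⟨y, h' n hz⟩

end Pool.Agent.Results.MP_98022b_gt.SurjectivityDecides
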